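import Mathlib

/-!
# Monogenity of the irreducible factors of the Lucas polynomials of odd index

For odd `n` the polynomial `X` is the only monogenic monic irreducible factor of the Lucas polynomial
`L_n`.  So all the monic irreducible factors of `L_n` are monogenic if and only if `n = 1`.

Proof.  Let `θ ≠ 0` be a root of `L_n`, `n` odd.  Then `θ = ξ - ξ⁻¹` with `ξ ^ n = 1`, and
`ξ = (θ + D_m (θ ^ 2 + 2)) / 2`, `m = (n + 1) / 2`, `D_m` the Dickson polynomial, is an algebraic
integer of `ℚ(θ)`.  If `ξ = h(θ)`, `h` an integral polynomial, then the complex conjugation gives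
`ξ⁻¹ = h(-θ)`, so `θ = h(θ) - h(-θ)` is divisible by `2 θ`, a contradiction.
-/

namespace Pool.Agent.Results.MP_14f819_nt.OddIndex

open Polynomial

/-- The Lucas polynomials `L_0 = 2`, `L_1 = X`, `L_{n+2} = X L_{n+1} + L_n`. -/
noncomputable def lucas : ℕ → ℤ[X]
  | 0 => 2
  | 1 => X
  | n + 2 => X * lucas (n + 1) + lucas n

/-- `f` is monogenic: `ℤ[θ]` is the ring of integers of `K` whenever `K = ℚ(θ)` is a number field and
`θ` is a root of `f`. -/
def Monogenic (f : ℤ[X]) : Prop :=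
  ∀ (K : Type) [Field K] [NumberField K] (θ : K), aeval θ f = 0 →
    IntermediateField.adjoin ℚ {θ} = ⊤ → Algebra.adjoin ℤ {θ} = integralClosure ℤ K

/-- `L_n(u + v) = u ^ n + v ^ n` if `u v = -1`. -/
theorem aeval_lucas {R : Type*} [CommRing R] (u v : R) (h : u * v = -1) (n : ℕ) :
    aeval (u + v) (lucas n) = u ^ n + v ^ n := by
  induction n using Nat.strong_induction_on with
  | _ n ih =>
    match n with
    | 0 =>
      rw [lucas, pow_zero, pow_zero, show (2 : ℤ[X]) = 1 + 1 by norm_num, map_add, map_one]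
    | 1 => simp [lucas]
    | n + 2 =>
      have h1 := ih (n + 1) (by omega)
      have h0 := ih n (by omega)
      rw [lucas, map_add, map_mul, aeval_X, h1, h0]
      have : (u + v) * (u ^ (n + 1) + v ^ (n + 1)) + (u ^ n + v ^ n) =
        u ^ (n + 2) + v ^ (n + 2) + (u * v + 1) * (u ^ n + v ^ n) := by ring
      rw [this, h]
      ring

/-- `1 / 2` is not an algebraic integer. -/
theorem not_integral_half (w : ℂ) (hw : IsIntegral ℤ w) (h : 2 * w = 1) : False := by
  have h1 : w = algebraMap ℚ ℂ (1 / 2) := by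
    have : w = 1 / 2 := by linear_combination h / 2
    rw [this]; norm_num
  rw [h1, isIntegral_algebraMap_iff (algebraMap ℚ ℂ).injective] at hw
  obtain ⟨z, hz⟩ := (IsIntegrallyClosed.isIntegral_iff).1 hw
  have h2 : (z : ℚ) = 1 / 2 := by simpa using hz
  have h3 : ((2 * z : ℤ) : ℚ) = ((1 : ℤ) : ℚ) := by push_cast; rw [h2]; norm_num
  have h4 : 2 * z = 1 := by exact_mod_cast h3
  omega

/-- a nonzero root of `L_n`, `n` odd, in a number field: some algebraic integer is not in `ℤ[θ]` -/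
theorem not_adjoin (n : ℕ) (hn : Odd n) (K : Type) [Field K] [NumberField K] (θ : K)
    (hθ : aeval θ (lucas n) = 0) (h0 : θ ≠ 0) : Algebra.adjoin ℤ {θ} ≠ integralClosure ℤ K := by
  intro hcon
  obtain ⟨φ⟩ : Nonempty (K →+* ℂ) := inferInstance
  have hφ := φ.injective
  set t := φ θ with ht
  have ht0 : t ≠ 0 := by rw [ht]; simpa using h0
  have ev : ∀ (p : ℤ[X]) (x : K), φ (aeval x p) = aeval (φ x) p := by
    intro p x
    have := Polynomial.hom_eval₂ p (algebraMap ℤ K) φ x
    rw [aeval_def, this, aeval_def]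
    congr 1
    exact RingHom.ext_int _ _
  have hLt : aeval t (lucas n) = 0 := by rw [ht, ← ev, hθ, map_zero]
  -- the root of unity
  obtain ⟨ξ, hξn, hξt⟩ : ∃ ξ : ℂ, ξ ^ n = 1 ∧ ξ - ξ⁻¹ = t := by
    obtain ⟨u, hu⟩ := IsAlgClosed.exists_root (X ^ 2 - C t * X - 1 : ℂ[X]) (by
      have : (X ^ 2 - C t * X - 1 : ℂ[X]).degree = 2 := by compute_degree!
      rw [this]; norm_num)
    have hu' : u ^ 2 - t * u - 1 = 0 := by simpa [IsRoot] using hu
    have hu0 : u ≠ 0 := by
      rintro rfl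
      simp at hu'
    have hut : u + -u⁻¹ = t := by
      field_simp
      linear_combination hu'
    have huv : u * -u⁻¹ = -1 := by field_simp
    have hL := aeval_lucas u (-u⁻¹) huv n
    rw [hut, hLt, hn.neg_pow] at hL
    have h1 : u ^ n = (u ^ n)⁻¹ := by
      rw [← inv_pow]
      linear_combination -hL
    have h2 : u ^ n * u ^ n = 1 := by
      nth_rewrite 2 [h1]
      exact mul_inv_cancel₀ (pow_ne_zero n hu0)
    rcases mul_self_eq_one_iff.1 h2 with h3 | h3
    · exact ⟨u, h3, by rw [sub_eq_add_neg]; exact hut⟩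
    · refine ⟨-u⁻¹, ?_, ?_⟩
      · rw [hn.neg_pow, inv_pow, h3]; norm_num
      · rw [← hut]
        field_simp
        ring
  have hn0 : n ≠ 0 := by rintro rfl; exact absurd hn (by decide)
  have hξ0 : ξ ≠ 0 := by
    rintro rfl
    rw [zero_pow hn0] at hξn
    exact zero_ne_one hξn
  -- `ξ` comes from `K`
  obtain ⟨k, hk⟩ := hn
  have hξm : ξ = (ξ ^ 2) ^ (k + 1) := by
    rw [← pow_mul, show 2 * (k + 1) = n + 1 by omega, pow_succ, hξn, one_mul]
  have hinv : ξ⁻¹ = ((ξ ^ 2)⁻¹) ^ (k + 1) := by rw [inv_pow, ← hξm]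
  have hD : (dickson 1 (1 : ℂ) (k + 1)).eval (ξ ^ 2 + (ξ ^ 2)⁻¹) = ξ + ξ⁻¹ := by
    rw [dickson_one_one_eval_add_inv _ _ (mul_inv_cancel₀ (pow_ne_zero 2 hξ0)), ← hξm, ← hinv]
  have ht2 : ξ ^ 2 + (ξ ^ 2)⁻¹ = t ^ 2 + 2 := by
    rw [← hξt]
    field_simp
    ring
  set D : ℤ[X] := dickson 1 (1 : ℤ) (k + 1) with hDdef
  have hDC : D.map (Int.castRingHom ℂ) = dickson 1 (1 : ℂ) (k + 1) := by
    rw [hDdef, map_dickson]; simp
  set x₀ : K := (θ + aeval (θ ^ 2 + 2) D) / 2 with hx₀
  have hφx : φ x₀ = ξ := by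
    rw [hx₀, map_div₀, map_add, ev, map_add, map_pow, ← ht]
    have h1 : aeval (t ^ 2 + φ 2) D = ξ + ξ⁻¹ := by
      rw [map_ofNat, ← ht2, ← hD, ← hDC, eval_map, aeval_def]
      rfl
    rw [h1, map_ofNat, ← hξt]
    ring
  have hx₀int : x₀ ∈ integralClosure ℤ K := by
    refine ⟨X ^ n - 1, monic_X_pow_sub_C (1 : ℤ) hn0, ?_⟩
    have : x₀ ^ n = 1 := hφ (by rw [map_pow, hφx, hξn, map_one])
    simp [this]
  rw [← hcon, Algebra.adjoin_singleton_eq_range_aeval] at hx₀int
  obtain ⟨h, hh⟩ := hx₀int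
  have hξh : aeval t h = ξ := by
    rw [ht, ← ev, ← hφx]
    congr 1
  -- complex conjugation
  have hnorm : ‖ξ‖ = 1 := Complex.norm_eq_one_of_pow_eq_one hξn hn0
  have hconj : (starRingEnd ℂ) ξ = ξ⁻¹ := (Complex.inv_eq_conj hnorm).symm
  have hconjt : (starRingEnd ℂ) t = -t := by
    rw [← hξt, map_sub, map_inv₀, hconj, inv_inv]
    ring
  have hξh' : aeval (-t) h = ξ⁻¹ := by
    have h1 := Polynomial.hom_eval₂ h (algebraMap ℤ ℂ) (starRingEnd ℂ) t
    rw [← aeval_def, hξh, hconj, hconjt] at h1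
    rw [h1, aeval_def]
    congr 1
    exact (RingHom.ext_int _ _)
  -- `2 t` divides `h t - h (-t)`
  have htint : IsIntegral ℤ t := by
    have h1 : IsIntegral ℤ ξ := ⟨X ^ n - 1, monic_X_pow_sub_C (1 : ℤ) hn0, by simp [hξn]⟩
    have h2 : IsIntegral ℤ ξ⁻¹ := ⟨X ^ n - 1, monic_X_pow_sub_C (1 : ℤ) hn0, by simp [hξn]⟩
    rw [← hξt]
    exact h1.sub h2
  let A := integralClosure ℤ ℂ
  let τ : A := ⟨t, htint⟩
  obtain ⟨w, hw⟩ := (h.map (algebraMap ℤ A)).sub_dvd_eval_sub τ (-τ)
  have hw' := congrArg (fun a : A => (a : ℂ)) hw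
  have e1 : (((h.map (algebraMap ℤ A)).eval τ : A) : ℂ) = aeval t h := by
    rw [eval_map]
    have h1 : (algebraMap A ℂ) (eval₂ (algebraMap ℤ A) τ h) =
      eval₂ ((algebraMap A ℂ).comp (algebraMap ℤ A)) ((algebraMap A ℂ) τ) h :=
      Polynomial.hom_eval₂ h (algebraMap ℤ A) (algebraMap A ℂ) τ
    have h2 : (algebraMap A ℂ).comp (algebraMap ℤ A) = algebraMap ℤ ℂ := RingHom.ext_int _ _
    rw [h2] at h1
    exact h1
  have e2 : (((h.map (algebraMap ℤ A)).eval (-τ) : A) : ℂ) = aeval (-t) h := by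
    rw [eval_map]
    have h1 : (algebraMap A ℂ) (eval₂ (algebraMap ℤ A) (-τ) h) =
      eval₂ ((algebraMap A ℂ).comp (algebraMap ℤ A)) ((algebraMap A ℂ) (-τ)) h :=
      Polynomial.hom_eval₂ h (algebraMap ℤ A) (algebraMap A ℂ) (-τ)
    have h2 : (algebraMap A ℂ).comp (algebraMap ℤ A) = algebraMap ℤ ℂ := RingHom.ext_int _ _
    rw [h2] at h1
    exact h1
  have hw2 : aeval t h - aeval (-t) h = (t - -t) * (w : ℂ) := by
    rw [← e1, ← e2]
    exact hw'
  rw [hξh, hξh', hξt] at hw2
  refine not_integral_half (w : ℂ) w.2 ?_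
  have : t * (2 * (w : ℂ) - 1) = 0 := by linear_combination -hw2
  rcases mul_eq_zero.1 this with h1 | h1
  · exact absurd h1 ht0
  · linear_combination h1

/-- `X` is monogenic -/
theorem monogenic_X : Monogenic X := by
  intro K _ _ θ hθ hgen
  have h0 : θ = 0 := by simpa using hθ
  subst h0
  have hbot : (⊥ : IntermediateField ℚ K) = ⊤ := by
    rw [← hgen]
    exact (IntermediateField.adjoin_zero).symm
  apply le_antisymm
  · apply Algebra.adjoin_le
    simp only [Set.singleton_subset_iff, SetLike.mem_coe]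
    exact Subalgebra.zero_mem _
  · intro x hx
    have hx1 : x ∈ (⊥ : IntermediateField ℚ K) := by rw [hbot]; trivial
    obtain ⟨q, rfl⟩ := IntermediateField.mem_bot.1 hx1
    have hx2 : IsIntegral ℤ (algebraMap ℚ K q) := hx
    rw [isIntegral_algebraMap_iff (algebraMap ℚ K).injective] at hx2
    obtain ⟨z, hz⟩ := (IsIntegrallyClosed.isIntegral_iff).1 hx2
    rw [← hz, ← IsScalarTower.algebraMap_apply ℤ ℚ K]
    exact Subalgebra.algebraMap_mem _ z

/-- a monic irreducible integral polynomial has a root which generates a number field -/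
theorem exists_field (f : ℤ[X]) (hf : f.Monic) (hirr : Irreducible f) :
    ∃ (K : Type) (_ : Field K) (_ : NumberField K) (θ : K), aeval θ f = 0 ∧
      IntermediateField.adjoin ℚ {θ} = ⊤ := by
  set g : ℚ[X] := f.map (algebraMap ℤ ℚ) with hg
  have hgi : Irreducible g :=
    (hf.irreducible_iff_irreducible_map_fraction_map (K := ℚ)).1 hirr
  have hgm : g.Monic := hf.map _
  have : Fact (Irreducible g) := ⟨hgi⟩
  have : NumberField (AdjoinRoot g) :=
    { to_charZero := charZero_of_injective_algebraMap (algebraMap ℚ (AdjoinRoot g)).injective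
      to_finiteDimensional := (AdjoinRoot.powerBasis hgi.ne_zero).finite }
  refine ⟨AdjoinRoot g, inferInstance, inferInstance, AdjoinRoot.root g, ?_, ?_⟩
  · have h1 : eval₂ ((algebraMap ℚ (AdjoinRoot g)).comp (algebraMap ℤ ℚ)) (AdjoinRoot.root g) f
        = 0 := by
      rw [← eval₂_map, ← hg]
      exact AdjoinRoot.eval₂_root g
    have h2 : ∀ φ : ℤ →+* AdjoinRoot g, eval₂ φ (AdjoinRoot.root g) f = 0 := by
      intro φ
      have : φ = (algebraMap ℚ (AdjoinRoot g)).comp (algebraMap ℤ ℚ) := RingHom.ext_int _ _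
      rw [this]
      exact h1
    exact h2 _
  · exact IntermediateField.adjoin_eq_top_of_algebra ℚ _ AdjoinRoot.adjoinRoot_eq_top

theorem monogenic_iff (n : ℕ) (hn : Odd n) (f : ℤ[X]) (hf : f.Monic) (hirr : Irreducible f)
    (hdvd : f ∣ lucas n) : Monogenic f ↔ f = X := by
  constructor
  · intro hm
    obtain ⟨K, _, _, θ, hθ, hgen⟩ := exists_field f hf hirr
    by_contra hne
    have hθL : aeval θ (lucas n) = 0 := by
      obtain ⟨g, hg⟩ := hdvd
      rw [hg, map_mul, hθ, zero_mul]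
    have hθ0 : θ ≠ 0 := by
      rintro rfl
      have h1 : f.coeff 0 = 0 := by
        have h2 : aeval (0 : K) f = ((f.coeff 0 : ℤ) : K) := by
          rw [aeval_def, eval₂_at_zero]; simp
        rw [hθ] at h2
        exact_mod_cast h2.symm
      have h3 : X ∣ f := X_dvd_iff.2 h1
      have h4 : Associated X f := Polynomial.irreducible_X.associated_of_dvd hirr h3
      exact hne (eq_of_monic_of_associated monic_X hf h4).symm
    exact not_adjoin n hn K θ hθL hθ0 (hm K θ hθ hgen)
  · rintro rfl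
    exact monogenic_X

/-- **Main result.** For odd `n` a monic irreducible factor of `L_n` is monogenic if and only if it
is `X`; all the monic irreducible factors of `L_n` are monogenic if and only if `n = 1`. -/
theorem result (n : ℕ) (hn : Odd n) :
    (∀ f : ℤ[X], f.Monic → Irreducible f → f ∣ lucas n → (Monogenic f ↔ f = X)) ∧
    ((∀ f : ℤ[X], f.Monic → Irreducible f → f ∣ lucas n → Monogenic f) ↔ n = 1) := by
  refine ⟨fun f hf hirr hdvd => monogenic_iff n hn f hf hirr hdvd, ?_, ?_⟩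
  · intro h
    by_contra hne
    have hn0 : n ≠ 0 := by rintro rfl; exact absurd hn (by decide)
    have hn3 : 2 < n := by
      rcases hn with ⟨k, hk⟩
      omega
    -- the root `ζ - ζ⁻¹`
    set ζ : ℂ := Complex.exp (2 * Real.pi * Complex.I / n) with hζ
    have hprim : IsPrimitiveRoot ζ n := Complex.isPrimitiveRoot_exp n hn0
    have hζ0 : ζ ≠ 0 := Complex.exp_ne_zero _
    have hζn : ζ ^ n = 1 := hprim.pow_eq_one
    set t : ℂ := ζ + -ζ⁻¹ with ht
    have hL : aeval t (lucas n) = 0 := by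
      rw [ht, aeval_lucas ζ (-ζ⁻¹) (by field_simp) n, hn.neg_pow, inv_pow, hζn]
      norm_num
    have ht0 : t ≠ 0 := by
      intro h0
      have h1 : ζ ^ 2 = 1 := by
        have h2 : ζ * t = ζ ^ 2 - 1 := by
          rw [ht]; field_simp; ring
        rw [h0, mul_zero] at h2
        linear_combination -h2
      have h3 := hprim.dvd_of_pow_eq_one 2 h1
      have := Nat.le_of_dvd (by norm_num) h3
      omega
    have htint : IsIntegral ℤ t := by
      have h1 : IsIntegral ℤ ζ := ⟨X ^ n - 1, monic_X_pow_sub_C (1 : ℤ) hn0, by simp [hζn]⟩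
      have h2 : IsIntegral ℤ ζ⁻¹ := ⟨X ^ n - 1, monic_X_pow_sub_C (1 : ℤ) hn0, by simp [hζn]⟩
      exact h1.add h2.neg
    have hmon := minpoly.monic htint
    have hirr := minpoly.irreducible htint
    have hdvd : minpoly ℤ t ∣ lucas n := minpoly.isIntegrallyClosed_dvd htint hL
    have hX := (monogenic_iff n hn _ hmon hirr hdvd).1 (h _ hmon hirr hdvd)
    have h5 := minpoly.aeval ℤ t
    rw [hX, aeval_X] at h5
    exact ht0 h5
  · rintro rfl f hf hirr hdvd
    have h1 : f = X := by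
      have h2 : f ∣ X := by simpa [lucas] using hdvd
      exact eq_of_monic_of_associated hf monic_X
        (hirr.associated_of_dvd Polynomial.irreducible_X h2)
    rw [h1]
    exact monogenic_X

end Pool.Agent.Results.MP_14f819_nt.OddIndex
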